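import Pool.Agent.P8H81.LP.GE
import Pool.Agent.P8H81.LP.Stm2

/-! Project LPB, package MGF. -/

set_option autoImplicit false

open MeasureTheory ProbabilityTheory Filter Finset

namespace Pool.Agent.P8H78.LPB

open Pool.Agent.P8H81.LP

theorem mgf : S_MGF := by
  intro hc hpos μ hμ hG s a
  have h := GEAux.taskGE μ (fun x y => hc (x - y)) hμ hG hpos s a
  set F : (ℕ → (Fin 2 → ℤ) → ℝ) → ℝ := fun w => ∑ i ∈ s, a i * w i.1 i.2 with hF
  have hFm : Measurable F := by
    rw [hF]
    fun_prop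
  set v : ℝ := ∑ i ∈ s, ∑ j ∈ s, a i * a j * (if i.1 = j.1 then hc (i.2 - j.2) else 0) with hv
  have hv0 : 0 ≤ v := by
    rw [hv, GEAux.sum_double s a (fun x y => hc (x - y))]
    exact Finset.sum_nonneg fun n _ => hpos _ (fun x => a (n, x))
  have hi : Integrable (fun x : ℝ => Real.exp (1 * x)) (gaussianReal 0 (Real.toNNReal v)) :=
    integrable_exp_mul_gaussianReal 1
  rw [← h] at hi
  have hi2 := hi.comp_measurable hFm
  have e1 : (fun x : ℝ => Real.exp (1 * x)) ∘ F = fun w => Real.exp (F w) := by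
    funext w
    simp
  rw [e1] at hi2
  refine ⟨hi2, ?_⟩
  have h2 := mgf_gaussianReal (p := PP μ) (X := F) h 1
  have e2 : ProbabilityTheory.mgf F (PP μ) 1 = ∫ w, Real.exp (F w) ∂(PP μ) := by
    unfold ProbabilityTheory.mgf
    simp
  rw [e2] at h2
  rw [h2, Real.coe_toNNReal v hv0]
  congr 1
  ring

end Pool.Agent.P8H78.LPB
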