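import Pool.Agent.P8H81.LP.Stm2

/-! Project LPB, package PTH. -/

set_option autoImplicit false

open MeasureTheory ProbabilityTheory Filter Finset

namespace Pool.Agent.P8H78.LPB

open Pool.Agent.P8H81.LP

lemma lin_sum (T B : Finset (Fin 2 → ℤ)) (p : Fin 2 → ℤ) (hp : p ∈ T) (hB : B ⊆ T) (β q : ℝ)
    (g : (Fin 2 → ℤ) → ℝ) :
    ∑ y ∈ T, ((if y = p then β else 0) - (if y ∈ B then q else 0)) * g y =
      β * g p - q * ∑ y ∈ B, g y := by
  classical
  have h1 : ∑ y ∈ T, (if y = p then β else 0) * g y = β * g p := by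
    rw [Finset.sum_eq_single p]
    · simp
    · intro y _ hy
      simp [hy]
    · intro h
      exact absurd hp h
  have h2 : ∑ y ∈ T, (if y ∈ B then q else 0) * g y = q * ∑ y ∈ B, g y := by
    rw [Finset.mul_sum, ← Finset.sum_subset hB]
    · apply Finset.sum_congr rfl
      intro y hy
      simp [hy]
    · intro y _ hy
      simp [hy]
  rw [← h1, ← h2, ← Finset.sum_sub_distrib]
  apply Finset.sum_congr rfl
  intro y _
  ring

lemma quad_sum (hc : (Fin 2 → ℤ) → ℝ) (h0 : hc 0 = 1) (hs : ∀ x, hc (-x) = hc x)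
    (T B : Finset (Fin 2 → ℤ)) (p : Fin 2 → ℤ) (hp : p ∈ T) (hB : B ⊆ T) (β q : ℝ) :
    ∑ y ∈ T, ∑ z ∈ T, ((if y = p then β else 0) - (if y ∈ B then q else 0)) *
      ((if z = p then β else 0) - (if z ∈ B then q else 0)) * hc (y - z) =
      β ^ 2 - 2 * β * (q * ∑ y ∈ B, hc (p - y)) + q ^ 2 * ∑ y ∈ B, ∑ z ∈ B, hc (y - z) := by
  classical
  have h1 : ∀ y, ∑ z ∈ T, ((if y = p then β else 0) - (if y ∈ B then q else 0)) *
      ((if z = p then β else 0) - (if z ∈ B then q else 0)) * hc (y - z) =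
      ((if y = p then β else 0) - (if y ∈ B then q else 0)) *
        (β * hc (y - p) - q * ∑ z ∈ B, hc (y - z)) := by
    intro y
    rw [← lin_sum T B p hp hB β q (fun z => hc (y - z)), Finset.mul_sum]
    apply Finset.sum_congr rfl
    intro z _
    ring
  rw [Finset.sum_congr rfl (fun y _ => h1 y),
    lin_sum T B p hp hB β q (fun y => β * hc (y - p) - q * ∑ z ∈ B, hc (y - z))]
  have h2 : ∑ y ∈ B, hc (y - p) = ∑ y ∈ B, hc (p - y) := by
    apply Finset.sum_congr rfl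
    intro y _
    rw [← hs (y - p), neg_sub]
  rw [Finset.sum_sub_distrib, ← Finset.mul_sum, ← Finset.mul_sum, h2, sub_self, h0]
  ring

lemma key (hM : S_MGF) (hc : (Fin 2 → ℤ) → ℝ) (h0 : hc 0 = 1) (hs : ∀ x, hc (-x) = hc x)
    (hpos : ∀ (s : Finset (Fin 2 → ℤ)) (b : (Fin 2 → ℤ) → ℝ),
      0 ≤ ∑ x ∈ s, ∑ y ∈ s, b x * b y * hc (x - y))
    (μ : Measure ((Fin 2 → ℤ) → ℝ)) (hμ : IsProbabilityMeasure μ)
    (hG : GLin μ (fun x y => hc (x - y))) (β : ℝ) (N : ℕ) (q : ℕ → ℝ) (R : ℕ → ℕ)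
    (p : ℕ → Fin 2 → ℤ) :
    Integrable (fun w : ℕ → (Fin 2 → ℤ) → ℝ => Real.exp (∑ n ∈ Icc 1 N, (β * w n (p n) - q n * ∑ y ∈ Pool.Agent.P8H81.LP.box (R n), w n y)))
      (PP μ) ∧
    ∫ w, Real.exp (∑ n ∈ Icc 1 N, (β * w n (p n) - q n * ∑ y ∈ Pool.Agent.P8H81.LP.box (R n), w n y)) ∂(PP μ) =
      Real.exp ((∑ n ∈ Icc 1 N, (β ^ 2 - 2 * β * (q n * ∑ y ∈ Pool.Agent.P8H81.LP.box (R n), hc (p n - y)) +
        (q n) ^ 2 * dbl hc (R n))) / 2) := by
  classical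
  set T : Finset (Fin 2 → ℤ) := (Icc 1 N).biUnion (fun n => insert (p n) (Pool.Agent.P8H81.LP.box (R n))) with hT
  have hp : ∀ n ∈ Icc 1 N, p n ∈ T := fun n hn =>
    Finset.mem_biUnion.2 ⟨n, hn, Finset.mem_insert_self _ _⟩
  have hB : ∀ n ∈ Icc 1 N, Pool.Agent.P8H81.LP.box (R n) ⊆ T := fun n hn y hy =>
    Finset.mem_biUnion.2 ⟨n, hn, Finset.mem_insert_of_mem hy⟩
  set a : ℕ × (Fin 2 → ℤ) → ℝ := fun i =>
    (if i.2 = p i.1 then β else 0) - (if i.2 ∈ Pool.Agent.P8H81.LP.box (R i.1) then q i.1 else 0) with ha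
  have h := hM hc hpos μ hμ hG (Icc 1 N ×ˢ T) a
  have e1 : ∀ w : ℕ → (Fin 2 → ℤ) → ℝ, ∑ i ∈ Icc 1 N ×ˢ T, a i * w i.1 i.2 =
      ∑ n ∈ Icc 1 N, (β * w n (p n) - q n * ∑ y ∈ Pool.Agent.P8H81.LP.box (R n), w n y) := by
    intro w
    rw [Finset.sum_product]
    apply Finset.sum_congr rfl
    intro n hn
    exact lin_sum T (Pool.Agent.P8H81.LP.box (R n)) (p n) (hp n hn) (hB n hn) β (q n) (fun y => w n y)
  have e2 : ∑ i ∈ Icc 1 N ×ˢ T, ∑ j ∈ Icc 1 N ×ˢ T,
      a i * a j * (if i.1 = j.1 then hc (i.2 - j.2) else 0) =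
      ∑ n ∈ Icc 1 N, (β ^ 2 - 2 * β * (q n * ∑ y ∈ Pool.Agent.P8H81.LP.box (R n), hc (p n - y)) +
        (q n) ^ 2 * dbl hc (R n)) := by
    rw [Finset.sum_product]
    apply Finset.sum_congr rfl
    intro n hn
    rw [dbl, ← quad_sum hc h0 hs T (Pool.Agent.P8H81.LP.box (R n)) (p n) (hp n hn) (hB n hn) β (q n)]
    apply Finset.sum_congr rfl
    intro y _
    rw [Finset.sum_product, Finset.sum_eq_single n]
    · apply Finset.sum_congr rfl
      intro z _
      simp only [ha, if_true]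
    · intro m _ hm
      apply Finset.sum_eq_zero
      intro z _
      have : ¬ (n = m) := fun e => hm e.symm
      simp only [this, if_false, mul_zero]
    · intro h
      exact absurd hn h
  simp only [e1, e2] at h
  exact h

theorem pth : S_PTH := by
  intro hM hc h0 hs hpos μ hμ hG β N q R
  refine ⟨fun σ => ?_, fun r => ?_⟩
  · have h := key hM hc h0 hs hpos μ hμ hG β N q R (fun n => pos σ n)
    set G : ℝ := ∑ n ∈ Icc 1 N, (q n) ^ 2 * dbl hc (R n) with hGd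
    have e1 : (fun w : ℕ → (Fin 2 → ℤ) → ℝ => wt β N w σ * Real.exp (-(∑ n ∈ Icc 1 N, q n * ∑ y ∈ Pool.Agent.P8H81.LP.box (R n), w n y) -
        G / 2)) = fun w => Real.exp (-(N * β ^ 2 + G) / 2) *
        Real.exp (∑ n ∈ Icc 1 N, (β * w n (pos σ n) - q n * ∑ y ∈ Pool.Agent.P8H81.LP.box (R n), w n y)) := by
      funext w
      unfold wt
      rw [← Real.exp_add, ← Real.exp_add]
      congr 1
      rw [Finset.sum_sub_distrib, Finset.sum_sub_distrib, Finset.sum_const, Nat.card_Icc]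
      simp only [nsmul_eq_mul, Nat.add_sub_cancel]
      ring
    rw [e1]
    refine ⟨h.1.const_mul _, ?_⟩
    rw [integral_const_mul, h.2, ← Real.exp_add]
    congr 1
    rw [Finset.sum_add_distrib, Finset.sum_sub_distrib, Finset.sum_const, Nat.card_Icc,
      ← Finset.mul_sum, ← hGd]
    simp only [nsmul_eq_mul, Nat.add_sub_cancel]
    ring
  · have h := key hM hc h0 hs hpos μ hμ hG 0 N (fun n => -(r * q n)) R (fun _ => 0)
    have e1 : (fun w : ℕ → (Fin 2 → ℤ) → ℝ =>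
        Real.exp (r * ∑ n ∈ Icc 1 N, q n * ∑ y ∈ Pool.Agent.P8H81.LP.box (R n), w n y)) =
        fun w => Real.exp (∑ n ∈ Icc 1 N, (0 * w n 0 - -(r * q n) * ∑ y ∈ Pool.Agent.P8H81.LP.box (R n), w n y)) := by
      funext w
      congr 1
      rw [Finset.mul_sum]
      apply Finset.sum_congr rfl
      intro n _
      ring
    rw [e1]
    refine ⟨h.1, ?_⟩
    rw [h.2]
    congr 1
    rw [Finset.mul_sum]
    congr 1
    apply Finset.sum_congr rfl
    intro n _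
    ring

end Pool.Agent.P8H78.LPB
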